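import Pool.Agent.Q113.LP6

/-!
# MP_d43ba4_co: the linear Turán number of the linear path with four edges

For all `r ≥ 3`, `n ≥ 1`: a linear `r`-uniform `P₄^r`-free hypergraph on `n` vertices has at most
`(r + 1) n / r` hyperedges, with equality exactly for vertex-disjoint unions of copies of
`S(2, r, r²)` covering all vertices.

Proof outline. The intersection graph of the hyperedges has no induced path on four vertices, so
every subfamily with at least two members splits into two parts `P, Q` such that members of
different parts are always disjoint, or always meet in one vertex. Let `U F` be the real span of the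
incidence vectors of `F`. In the first case `U P` and `U Q` are orthogonal. In the second case
`⟨a, b⟩ = (∑ a / r) (∑ b / r)` for `a ∈ U P`, `b ∈ U Q`, so `U P ∩ U Q` has dimension at most one, and
if it is one it is spanned by a unit vector `w` with `⟨w, 1_g⟩ = 1` for all `g` in `P ∪ Q`. By
induction such a `w` forces `|F| ≥ r (nullity + 1)` and many edges through every vertex of its support
that meet a given edge, hence nullity `≤ r`. Together `r |F| ≤ (r + 1) rank F ≤ (r + 1) n`.
-/

namespace Pool.Agent.Results.MP_d43ba4_co.LinearPathFour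

open Finset Pool.Q113.LP

/-- every hyperedge has `r` elements -/
def Uniform (r : ℕ) {V : Type*} (E : Finset (Finset V)) : Prop := ∀ e ∈ E, e.card = r

/-- two distinct hyperedges share at most one vertex -/
def Linear {V : Type*} [DecidableEq V] (E : Finset (Finset V)) : Prop :=
  ∀ e ∈ E, ∀ f ∈ E, e ≠ f → (e ∩ f).card ≤ 1

/-- `ex_r^lin(n, P₄^r)`; `ContainsP4 r E` says that an injection of the vertex set of `P₄^r`
(five path vertices and `r - 2` new vertices for each of the four path edges) into the vertices
maps each of the four hyperedges of `P₄^r` onto a hyperedge of `E` -/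
noncomputable def exLin (r n : ℕ) : ℕ :=
  sSup {m | ∃ E : Finset (Finset (Fin n)), Uniform r E ∧ Linear E ∧ ¬ ContainsP4 r E ∧
    E.card = m}

/-- `S` is a Steiner system `S(2, r, r²)` on the vertex set `B` -/
def IsSteiner (r : ℕ) {V : Type*} (B : Finset V) (S : Finset (Finset V)) : Prop :=
  B.card = r ^ 2 ∧ (∀ e ∈ S, e ⊆ B ∧ e.card = r) ∧
    ∀ x ∈ B, ∀ y ∈ B, x ≠ y → ∃! e, e ∈ S ∧ x ∈ e ∧ y ∈ e

/-- the vertex set is partitioned into blocks of size `r²`, each spanning a copy of
`S(2, r, r²)`, and there are no other hyperedges -/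
def SteinerUnion (r : ℕ) {V : Type*} [Fintype V] [DecidableEq V] (E : Finset (Finset V)) : Prop :=
  ∃ π : Finpartition (univ : Finset V),
    (∀ B ∈ π.parts, IsSteiner r B (E.filter (fun e => e ⊆ B))) ∧
      ∀ e ∈ E, ∃ B ∈ π.parts, e ⊆ B

lemma bound {r : ℕ} (hr : 3 ≤ r) {V : Type*} [Fintype V] [DecidableEq V]
    {E : Finset (Finset V)} (h : Sys r E) :
    r * E.card ≤ (r + 1) * (cov E).card := by
  rcases E.eq_empty_or_nonempty with rfl | hne
  · simp
  · exact (main_ineq (by omega) E h hne).trans (Nat.mul_le_mul_left _ (rk_le_cov E))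

lemma char {r : ℕ} (hr : 3 ≤ r) {V : Type*} [Fintype V] [DecidableEq V] [Nonempty V]
    {E : Finset (Finset V)} (h : Sys r E) :
    r * E.card = (r + 1) * Fintype.card V ↔ SteinerUnion r E := by
  have hcov : (cov E).card ≤ Fintype.card V := card_le_univ _
  constructor
  · intro heq
    have hb := bound hr h
    have h1 : (cov E).card = Fintype.card V := by
      apply le_antisymm hcov
      rw [heq] at hb
      exact Nat.le_of_mul_le_mul_left hb (by omega)
    have hne : E.Nonempty := by
      rw [nonempty_iff_ne_empty]
      rintro rfl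
      have : 0 < Fintype.card V := Fintype.card_pos
      simp only [card_empty, mul_zero] at heq
      have := heq.symm
      simp at this
    obtain ⟨B, hB⟩ := blocks_of_eq (by omega) E h hne (by rw [h1]; exact heq)
    have hX : cov E = univ := by
      rw [← card_eq_iff_eq_univ]; exact h1
    have hBne : ∀ b ∈ B, b.Nonempty := by
      intro b hb
      rw [← card_pos, hB.card b hb]
      positivity
    refine ⟨{ parts := B, supIndep := ?_, sup_parts := ?_, bot_notMem := ?_ }, ?_, hB.sub⟩
    · rw [Finset.supIndep_iff_pairwiseDisjoint]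
      exact hB.disj
    · rw [← hX, ← hB.cover]
      exact (sup_eq_biUnion _ _)
    · intro hbot
      have := hBne _ hbot
      simp at this
    · intro b hb
      refine ⟨hB.card b hb, ?_, ?_⟩
      · intro e he
        rw [mem_filter] at he
        exact ⟨he.2, h.card e he.1⟩
      · intro x hx y hy hxy
        obtain ⟨e, he, hxe, hye⟩ := hB.pair b hb x hx y hy hxy
        refine ⟨e, ⟨mem_filter.mpr ⟨he, ?_⟩, hxe, hye⟩, ?_⟩
        · obtain ⟨b', hb', hsub⟩ := hB.sub e he
          by_cases hbb : b = b'
          · rw [hbb]; exact hsub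
          · exact absurd (hsub hxe) (Finset.disjoint_left.mp (hB.disj hb hb' hbb) hx)
        · rintro f ⟨hf, hxf, hyf⟩
          rw [mem_filter] at hf
          by_contra hne'
          have h3 := h.lin f hf.1 e he hne'
          have h4 : ({x, y} : Finset V) ⊆ f ∩ e := by
            intro z hz
            rw [mem_insert, mem_singleton] at hz
            rcases hz with rfl | rfl
            · exact mem_inter.mpr ⟨hxf, hxe⟩
            · exact mem_inter.mpr ⟨hyf, hye⟩
          have h5 := card_le_card h4
          rw [card_pair hxy] at h5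
          omega
  · rintro ⟨π, hπ, hsub⟩
    have hB : Blocks r E univ π.parts := by
      refine ⟨?_, ?_, fun b hb => (hπ b hb).1, hsub, ?_⟩
      · exact (Finset.supIndep_iff_pairwiseDisjoint).mp π.supIndep
      · rw [← sup_eq_biUnion]; exact π.sup_parts
      · intro b hb x hx y hy hxy
        obtain ⟨e, ⟨he, hxe, hye⟩, _⟩ := (hπ b hb).2.2 x hx y hy hxy
        exact ⟨e, (mem_filter.mp he).1, hxe, hye⟩
    have := eq_of_blocks (by omega) h hB
    rw [card_univ] at this
    exact this

/-- **The linear Turán number of the linear path with four edges.** For all `r ≥ 3` and `n ≥ 1`,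
`ex_r^lin(n, P₄^r) ≤ (r + 1) n / r`, and a linear `r`-uniform `P₄^r`-free hypergraph on `n` vertices
has exactly `(r + 1) n / r` hyperedges if and only if its vertex set is partitioned into blocks of
size `r²`, each spanning a copy of `S(2, r, r²)`, with no other hyperedges. -/
theorem result (r : ℕ) (hr : 3 ≤ r) (n : ℕ) (hn : 1 ≤ n) :
    (exLin r n : ℝ) ≤ (r + 1) * n / r ∧
    ∀ E : Finset (Finset (Fin n)), Uniform r E → Linear E → ¬ ContainsP4 r E →
      ((E.card : ℝ) = (r + 1) * n / r ↔ SteinerUnion r E) := by
  have hr0 : (0 : ℝ) < r := by positivity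
  have : Nonempty (Fin n) := ⟨⟨0, by omega⟩⟩
  have key : ∀ E : Finset (Finset (Fin n)), Uniform r E → Linear E → ¬ ContainsP4 r E →
      r * E.card ≤ (r + 1) * n := by
    intro E hu hl hp
    have h := sys_of hr hu hl hp
    refine (bound hr h).trans (Nat.mul_le_mul_left _ ?_)
    refine (card_le_univ _).trans ?_
    simp
  have hbdd : BddAbove {m | ∃ E : Finset (Finset (Fin n)), Uniform r E ∧ Linear E ∧
      ¬ ContainsP4 r E ∧ E.card = m} := by
    refine ⟨(r + 1) * n, ?_⟩
    rintro m ⟨E, hu, hl, hp, rfl⟩
    have := key E hu hl hp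
    nlinarith
  refine ⟨?_, ?_⟩
  · have hne : ({m | ∃ E : Finset (Finset (Fin n)), Uniform r E ∧ Linear E ∧
        ¬ ContainsP4 r E ∧ E.card = m}).Nonempty := by
      refine ⟨0, ∅, ?_, ?_, ?_, rfl⟩
      · intro e he; simp at he
      · intro e he; simp at he
      · rintro ⟨φ, _, h⟩
        have := h 0
        simp at this
    obtain ⟨E, hu, hl, hp, hE⟩ := Nat.sSup_mem hne hbdd
    have h1 := key E hu hl hp
    rw [le_div_iff₀ hr0]
    unfold exLin
    rw [← hE]
    have h2 : ((r * E.card : ℕ) : ℝ) ≤ (((r + 1) * n : ℕ) : ℝ) := by exact_mod_cast h1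
    push_cast at h2
    linarith
  · intro E hu hl hp
    rw [← char hr (sys_of hr hu hl hp), eq_div_iff hr0.ne', Fintype.card_fin]
    constructor
    · intro h
      have : ((r * E.card : ℕ) : ℝ) = (((r + 1) * n : ℕ) : ℝ) := by
        push_cast; linarith
      exact_mod_cast this
    · intro h
      have : ((r * E.card : ℕ) : ℝ) = (((r + 1) * n : ℕ) : ℝ) := by exact_mod_cast h
      push_cast at this
      linarith

end Pool.Agent.Results.MP_d43ba4_co.LinearPathFour
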